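import Pool.Agent.Q329.LR.Main

/-!
# Local reductions from gap 3-SAT to gap unique games must be large

The definitions used in the statement are `Represents`, `violated`, `Reads`, `SatOn` in
`Pool/Agent/TH700/UG/Defs.lean`, and `Clause`, `Satisfies`, `falsified` in
`Pool/Agent/W888/GX/Mix.lean`.

All known reductions from gap 3-SAT to Label Cover and its relatives are local: every assignment has
an honest labelling, each label of which depends on few of the variables (those of a few clauses, in
some encoding), and that the honest labelling of a satisfying assignment violates few edges is seen
gadget by gadget from few clauses. `Represents F D ε s t π` says this for the formula `F` and the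
unique game with the edges `(s e, t e)` and the constraints `π e`, with locality `D` and completeness
`1 - ε`: the number of edges violated by the honest labelling is `ε |E| - ∑ p, g p x`, where each
term `g p x` depends on at most `D` variables and is nonnegative if `x` satisfies the clauses of `F`
on these variables.

The theorem: for some formulas `F` in `n` variables with `O(n)` clauses, at most a fraction
`7 / 8 + η` of which can be satisfied, every unique game which represents `F` with locality `D` and
completeness `1 - ε`, and in which no labelling satisfies a fraction `1 - γ` of the edges, has more
than `(c n / (D log (2 / γ))) ^ (1 / r)` vertices, for every `r` in `(0, 1]` with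
`2 ^ 30 ε log (2 / r) ≤ r γ ^ 2`, for instance `r = 2 ^ 30 ε log (2 / ε) / γ ^ 2`.

So a local reduction which proves the Unique Games Conjecture for some `ε` and any soundness (even
`1 - γ` for a fixed small `γ`) has size at least `n ^ (c / (ε log (1 / ε)))` for bounded or slowly
growing locality, and in a reduction of polynomial size some label or gadget must depend on
`n ^ (1 - O(ε log (1 / ε)))` variables. The alphabet is arbitrary. This is unconditional; for
`ε → 0` it agrees in form with the bound that follows for all reductions from the exponential time
hypothesis and the subexponential algorithm of Arora, Barak and Steurer.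

Proof: for random formulas there is a pseudo-expectation of linear degree which satisfies all clauses
(`Pool/Agent/TH700/UG/Form.lean`, `Pool/Agent/TH843/LR/Form.lean`). Composed with the honest
labelling it is a solution of level `c n / D` of the mixed hierarchy (Sherali-Adams with the basic
semidefinite program) for the game, of value at least `1 - ε`. By the rounding theorem of the
starting result `SharpTradeoff` some labelling has value `1 - γ` if the level is at least
`2 ^ 30 log (2 / γ) |V| ^ r`.
-/

set_option autoImplicit false

namespace Pool.Agent.Results.MP_325f1f_lc.LocalReductions

open Finset Pool.Agent.W888.GX Pool.Agent.TH700.UG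

/-- For every `η > 0` there are `M` and `c > 0` such that for all large `n` there is a formula `F`
with at least `n` and at most `M n` clauses, with three literals each, over `n` variables, every
assignment of which falsifies at least a fraction `1 / 8 - η` of the clauses, and with the following
property. Let `D ≥ 1`, `ε > 0`, `0 < γ < 1`, `0 < r ≤ 1` and `2 ^ 30 ε log (2 / r) ≤ r γ ^ 2`. If a
unique game with vertices `V`, edges `(s e, t e)`, labels `A` and constraints `π e` represents `F`
with locality `D` and completeness `1 - ε`, and if every labelling satisfies less than a fraction
`1 - γ` of the edges, then `|V| ^ r > c n / (D log (2 / γ))`. -/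
theorem result : ∀ η : ℝ, 0 < η →
    ∃ M : ℕ, 1 ≤ M ∧ ∃ c : ℝ, 0 < c ∧ ∃ n₀ : ℕ, ∀ n : ℕ, n₀ ≤ n →
      ∃ (I : Type) (_ : Fintype I) (F : I → Clause 3 n),
        n ≤ Fintype.card I ∧ Fintype.card I ≤ M * n ∧
        (∀ z, (1 / 8 - η) * (Fintype.card I : ℝ) ≤ (falsified F z : ℝ)) ∧
        ∀ (D : ℕ) (ε γ r : ℝ) (V A E : Type) [Fintype V] [Fintype A] [Fintype E] [DecidableEq A]
          (s t : E → V) (π : E → Equiv.Perm A), 1 ≤ D → 0 < ε → 0 < γ → γ < 1 → 0 < r → r ≤ 1 →
          2 ^ 30 * (ε * Real.log (2 / r)) ≤ r * γ ^ 2 →
          Represents F D ε s t π →
          (∀ x : V → A, ((univ.filter fun e => π e (x (s e)) = x (t e)).card : ℝ) <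
            (1 - γ) * Fintype.card E) →
          c * n / (D * Real.log (2 / γ)) < (Fintype.card V : ℝ) ^ r :=
  Pool.Agent.Q329.LR.main

end Pool.Agent.Results.MP_325f1f_lc.LocalReductions
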