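import Pool.Agent.Q329.LSU.Upper

/-!
# Local search on unique games: the quality jumps from `1 / q` to optimal at radius `Θ(log n)`

Local search with auxiliary states and an arbitrary local potential (`Game`, `LocalCost`, `Step`,
`IsAut` in the starting file `Pool/Agent/TH912/LG/Defs.lean`). Every vertex carries a state from a
finite set `S`, from which its label is read off (`lab`, which may depend on the side). The potential
is the sum over all vertices of a real cost that is an arbitrary function of the radius-`r` view of
the vertex (the ball of radius `r` with its constraints and states, up to isomorphism). An improving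
move changes the states inside at most `m` balls of radius `t` and lowers the potential.

A game (`Game Q V`) has the labels `Q` and the vertices `V`; `con u v = some π` is a constraint from
`u` to `v` which is satisfied by a labelling `L` if `π (L u) = L v`. In a unique game the constraints
go from left to right and the maps are bijective (`Unique`), in a linear unique game modulo `q` they
are `x ↦ x + a` (`Linear`), both in `Pool/Agent/Q329/LSU/Defs.lean`. `numCon` and `numSat` count the
constraints and the satisfied ones, `Satisfiable` means value one.

Let `q ≥ 2` be the number of labels.

(1) Lower bound. For every `δ > 1 / q` there are a degree bound `Δ` and `c > 0` such that on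
arbitrarily large linear unique games modulo `q` with value one and degrees at most `Δ` the following
holds for all such local searches with `m (t + r + 1) ≤ c log n`: from every start that is invariant
under the automorphisms of the game, a run of improving moves ends in a local optimum that satisfies
at most a fraction `δ` of the constraints.

(2) The fraction `1 / q` is reached on all unique games with the labels as states, the number of
violated constraints as potential, and moves at single vertices.

(3) With the same potential and moves inside one ball of radius
`t ≥ (12 / ε) log (number of constraints) + 1`, every local optimum of every game (unique or not,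
satisfiable or not) satisfies at least as many constraints as any other labelling, up to `ε` times
the number of all constraints.

So for local search on games of value one (in particular on those of value at least `1 - ε`, which are
the subject of the Unique Games Conjecture) larger radii do not help at all below `c log n`, and from
`C log n` on everything is reached.

The starting result `MP_ec946a_lc.LocalSearchThreshold` treats 2-to-1 games of value one (with a large
label set, value at most `1 / k` against `1 - ε`). Its symmetric runs (`Far.run`) and its graphs of
large girth are used. New are unique games, every `q ≥ 2` with the exact constant `1 / q` (an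
exponential moment bound instead of counting), and almost optimal local optima on games of arbitrary
value.
-/

set_option autoImplicit false

namespace Pool.Agent.Results.MP_325f1f_lc.LocalSearchThreshold

open Pool.Agent.TH912.LG
open Pool.Agent.Q329.LSU (Linear Unique)

theorem result (q : ℕ) [NeZero q] (hq : 2 ≤ q) :
    -- (1) at most `δ` up to radius `c log n`
    (∀ δ : ℝ, 1 / (q : ℝ) < δ → ∃ (Δ : ℕ) (c : ℝ), 0 < c ∧
      ∀ N : ℕ, ∃ (V : Type) (_ : Fintype V) (X : Game (ZMod q) V),
        N ≤ Fintype.card V ∧ Linear X ∧ Satisfiable X ∧ 0 < numCon X ∧
        (∀ v, (X.gr.neighborSet v).ncard ≤ Δ) ∧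
        ∀ (S : Type) [Finite S] (lab : Bool → S → ZMod q) (r m t : ℕ)
          (F : LocalCost (ZMod q) S r) (start : V → S),
          (m * (t + r + 1) : ℝ) ≤ c * Real.log (Fintype.card V) →
          (∀ φ : V ≃ V, IsAut X φ → ∀ v, start (φ v) = start v) →
          ∃ σ : V → S, Relation.ReflTransGen (Step F m t X) start σ ∧
            (∀ σ', ¬ Step F m t X σ σ') ∧
            (numSat X (fun v => lab (X.side v) (σ v)) : ℝ) ≤ δ * numCon X) ∧
    -- (2), (3): the potential is the number of violated constraints
    ∀ Q : Type, ∃ F : LocalCost Q Q 1,
      (∀ (V : Type) [Fintype V] (X : Game Q V) (σ : V → Q),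
        F.total X σ = (numCon X : ℝ) - numSat X σ) ∧
      -- (2) at least `1 / q` with moves at single vertices
      (∀ (V : Type) [Fintype V] (X : Game Q V) (σ : V → Q), Nat.card Q = q → Unique X →
        (∀ σ', ¬ Step F 1 0 X σ σ') → 1 / (q : ℝ) * numCon X ≤ numSat X σ) ∧
      -- (3) almost optimal from radius `(12 / ε) log (number of constraints) + 1` on
      ∀ (V : Type) [Fintype V] (X : Game Q V) (σ : V → Q) (ε : ℝ) (t : ℕ), 0 < ε → ε ≤ 1 →
        12 / ε * Real.log (numCon X) + 1 ≤ t → (∀ σ', ¬ Step F 1 t X σ σ') →
        ∀ L : V → Q, (numSat X L : ℝ) - ε * numCon X ≤ numSat X σ := by
  refine ⟨fun δ hδ => Pool.Agent.Q329.LSU.lower q hq δ hδ, fun Q => ⟨violCost Q, ?_, ?_, ?_⟩⟩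
  · intro V _ X σ
    rw [violCost_total, ← numSat_eq X σ]
    push_cast
    ring
  · intro V _ X σ hQ hX hσ
    have : Finite Q := Nat.finite_of_card_ne_zero (by omega)
    let _ : Fintype Q := Fintype.ofFinite Q
    have h1 := Pool.Agent.Q329.LSU.upper_one X hX σ hσ
    rw [Nat.card_eq_fintype_card] at hQ
    rw [hQ] at h1
    have hq0 : (0 : ℝ) < q := by
      have : 0 < q := by omega
      exact_mod_cast this
    have h2 : (numCon X : ℝ) ≤ q * numSat X σ := by exact_mod_cast h1
    rw [one_div, inv_mul_le_iff₀ hq0]
    exact h2
  · intro V _ X σ ε t hε hε1 ht hσ L
    exact Pool.Agent.Q329.LSU.upper_radius X σ L ε t hε hε1 ht hσ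

end Pool.Agent.Results.MP_325f1f_lc.LocalSearchThreshold
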