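import Pool.Agent.Q329.LT.Main

/-!
# Gap linear unique games are hard for read-once tensor networks, for every alphabet `q ≥ 2` and every
soundness above `1 / q`, even with completeness one

The inputs are linear unique games on the complete bipartite graph: for all `u, v < n` an equation
`M v - L u = x (u, v)` modulo `q` between the label `L u` of the left vertex `u` and the label `M v`
of the right vertex `v`. `Solves x L M e` says that the labelling `L`, `M` satisfies the equation of
the edge `e`; `ValueOne x` says that all equations can be satisfied, `ValueLe δ x` that no labelling
satisfies more than `δ n ^ 2` of them (`Pool/Agent/Q329/LT/Game.lean`).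

A tree tensor network `Net K V A W` (`Pool/Agent/TH700/PA/Defs.lean`) has leaves that read one symbol
of the alphabet `A` each (with a vector in `K ^ W` for each symbol); an inner node combines the
vectors of its two children by an arbitrary bilinear map. It accepts the input `x` if a linear form
of the vector of the root is not zero. The field `K` and the weights are arbitrary, so there may be
cancellations. The tree and the order of the edges are arbitrary; if every right child is a leaf then
this is a matrix product (a weighted read-once branching program). The bond dimension is `card W`.

(1) Let `q ≥ 2` and `δ > 1 / q`. There is a constant `D` such that for all `n ≥ D` networks with any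
number of nodes which read every edge at most once, accept all games of value one and reject all
games of value at most `δ`, have bond dimension at least `2 ^ (n / D)`. This holds up to the factor
`2 ^ μ` also for random networks which never accept a game of value at most `δ` and accept every game
of value one with probability at least `2 ^ (- μ)`. Networks for general unique games, or for games
of value at least `1 - ε` instead of value one, have to do more.

(2) The soundness is optimal: for `δ < 1 / q` there are no games of value at most `δ`.

(3) The dependence on `n` is optimal up to the constant: linear networks over `ℚ` which read every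
edge once accept exactly the games of value one with bond dimension `q ^ (2 n)`.

The starting result `TensorNetworks` for the 2-to-1 conjecture treats value one against value
`1 / g` for 2-to-1 games with at least `Γ g ^ 8` labels; here there are fewer inputs (only shifts),
the number of labels is arbitrary and the soundness is any number above `1 / q`.

Proof. The replacement lemma of `Pool/Agent/TH700/PA` (the nodes of the tree give a partition of the
edges into `t` parts of bounded rank; among more than `t * rank` accepted games some mixture of
different ones is accepted) is applied to the games of random labellings. A mixture is given by `t`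
labellings `ℓ_j`, and a labelling `β` satisfies the edge `(u, v)` of the part `j` if the differences
`ℓ_j - β` agree at `u` and `v`. For a fixed `β` these differences are independent and uniform. In
each part the edges with a heavy left and a heavy right end are few; for the other edges fix the
differences at the heavy side, and bound an exponential moment of the number of agreements, which is
a sum of independent bounded terms with total mean `1 / q` times the number of edges. The probability
that the value exceeds `1 / q + η` is less than `q ^ (- 2 n) 2 ^ (- n)`, so a union bound over all
labellings `β` is possible.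
-/

set_option autoImplicit false

namespace Pool.Agent.Results.MP_325f1f_lc.TensorNetworksLinear

open Pool.Agent.TH700.PA (Net)
open Pool.Agent.Q329.LT

theorem result (q : ℕ) [NeZero q] (hq : 2 ≤ q) :
    -- (1) the lower bound
    (∀ δ : ℝ, 1 / (q : ℝ) < δ → ∃ D : ℕ, 0 < D ∧ ∀ n : ℕ, D ≤ n →
      ∀ (μ : ℕ) (R : Type) [Fintype R] [Nonempty R] (K W : R → Type) [∀ ρ, Field (K ρ)]
        [∀ ρ, Fintype (W ρ)] (T : ∀ ρ, Net (K ρ) (Fin n × Fin n) (ZMod q) (W ρ))
        (a : ∀ ρ, W ρ → K ρ),
        (∀ ρ e, (T ρ).reads e ≤ 1) →
        (∀ ρ x, ValueLe δ x → (T ρ).value (a ρ) x = 0) →
        (∀ x, ValueOne x → Nat.card R ≤ 2 ^ μ * Nat.card {ρ // (T ρ).value (a ρ) x ≠ 0}) →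
        ∃ ρ, 2 ^ n ≤ (2 ^ μ * Fintype.card (W ρ)) ^ D) ∧
    -- (2) below `1 / q` there are no games
    (∀ n : ℕ, 1 ≤ n → ∀ δ : ℝ, δ < 1 / (q : ℝ) → ∀ x : Fin n × Fin n → ZMod q,
      ¬ ValueLe δ x) ∧
    -- (3) the upper bound
    ∀ n : ℕ, 1 ≤ n →
      ∃ (T : Net ℚ (Fin n × Fin n) (ZMod q) (Fin n ⊕ Fin n → ZMod q))
        (a : (Fin n ⊕ Fin n → ZMod q) → ℚ),
        T.Linear ∧ (∀ e, T.reads e = 1) ∧ ∀ x, T.value a x ≠ 0 ↔ ValueOne x :=
  ⟨fun δ hδ => lower q hq δ hδ, fun n hn δ hδ x => value_ge q hn hδ x,
    fun n hn => upper q hn⟩

end Pool.Agent.Results.MP_325f1f_lc.TensorNetworksLinear
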